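import Pool.Agent.P.MP_7a7a2a_an.Main

/-!
For every choice of the backtracking parameters, P²GD can converge to a non-stationary point of a
closed convex (hence apocalypse-free) subset of `ℝ³` with a linear cost: Q1 is false.
-/

namespace Pool.Agent.Results.MP_7a7a2a_an.WedgeZigzag

open Filter Topology Pool.Agent.P.MP_7a7a2a_an

theorem result (a β c : ℝ) (ha : 0 < a) (hβ : 0 < β ∧ β < 1) (hc : 0 < c ∧ c < 1) :
    ∃ (X : Set (EuclideanSpace ℝ (Fin 3))) (f : EuclideanSpace ℝ (Fin 3) → ℝ)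
      (x : ℕ → EuclideanSpace ℝ (Fin 3)) (z : EuclideanSpace ℝ (Fin 3)),
      X.Nonempty ∧ IsClosed X ∧ Convex ℝ X ∧ ApocalypseFree X ∧
      IsLinearMap ℝ f ∧ ContDiff ℝ 1 f ∧ LocallyLipschitz (gradient f) ∧
      x 0 ∈ X ∧ Bornology.IsBounded {y ∈ X | f y ≤ f (x 0)} ∧
      IsP2GD X f a β c x ∧
      Tendsto x atTop (𝓝 z) ∧ z ∈ X ∧ ¬ Stationary X f z := by
  obtain ⟨L, e, x, z, he, hx0, hP, hz, hns⟩ := main a β c ha hβ.1 hβ.2 hc.1 hc.2
  refine ⟨XX L, cost e, x, z, ⟨_, hx0⟩, XX_closed L, XX_convex L,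
    apocalypseFree_of_convex (XX_convex L) (XX_closed L), ?_, ?_, ?_, hx0,
    sublevel_bounded he, hP, hz, ?_, hns⟩
  · rw [cost_eq]
    exact (InnerProductSpace.toDual ℝ E3 (GG e)).toLinearMap.isLinear
  · rw [cost_eq]
    exact ContinuousLinearMap.contDiff _
  · have : gradient (cost e) = fun _ => GG e := funext (gradient_cost e)
    rw [this]
    exact LocallyLipschitz.const _
  · refine (XX_closed L).mem_of_tendsto hz (Eventually.of_forall fun k => ?_)
    cases k with
    | zero => exact hx0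
    | succ k =>
      obtain ⟨d, y, j, -, hy, -, hk⟩ := hP k
      rw [hk]
      exact (hy j).1

end Pool.Agent.Results.MP_7a7a2a_an.WedgeZigzag
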